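import Pool.Agent.H17.OZF.Family

namespace Pool.Agent.Results.MP_ad37e1_co.Disproof

open Pool.Agent.H17.OZF

/-- The inequality `MOF(G) ≥ n / 2` fails: for every `r ≥ 1` there is a connected graph `G` of
order `n = 23 * r` with `MOF(G) ≤ 11 * r < n / 2`; in particular every orientation `D` of `G`
satisfies `F(D) < n / 2`. -/
theorem result (r : ℕ) (hr : 1 ≤ r) :
    ∃ (V : Type) (_ : Fintype V) (G : SimpleGraph V),
      Fintype.card V = 23 * r ∧ G.Connected ∧ MOF G ≤ 11 * r ∧
      (MOF G : ℝ) < (Fintype.card V : ℝ) / 2 ∧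
      ∀ D : V → V → Prop, IsOrientation G D →
        (forcingNumber D : ℝ) < (Fintype.card V : ℝ) / 2 := by
  have hcard : Fintype.card (Fin r × Fin 23) = 23 * r := by
    simp [mul_comm]
  have hlt : ∀ k : ℕ, k ≤ 11 * r → (k : ℝ) < (Fintype.card (Fin r × Fin 23) : ℝ) / 2 := by
    intro k hk
    rw [hcard]
    have h1 : (k : ℝ) ≤ 11 * r := by exact_mod_cast hk
    have h2 : (1 : ℝ) ≤ r := by exact_mod_cast hr
    push_cast
    linarith
  exact ⟨Fin r × Fin 23, inferInstance, starG r, hcard, starG_connected r hr,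
    star_MOF_le r hr, hlt _ (star_MOF_le r hr),
    fun D hD => hlt _ (star_forcingNumber_le r hr D hD)⟩

end Pool.Agent.Results.MP_ad37e1_co.Disproof
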